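import Pool.Agent.Helper44.GF.Defs

open Finset MeasureTheory Filter Topology
open scoped ENNReal ContDiff

namespace Pool.Agent.Helper44.GF

theorem main_mulVec {m n : ℕ} (F : Face m n) (t : Fin m → ℝ) :
    F.mat.mulVec t = ∑ k, t k • F.dir k := by
  funext i
  rw [Finset.sum_apply]
  unfold Matrix.mulVec dotProduct Face.mat
  refine Finset.sum_congr rfl fun k _ => ?_
  simp only [Matrix.of_apply, Pi.smul_apply, smul_eq_mul]
  ring

theorem main_injective {m n : ℕ} (F : Face m n) : Function.Injective F.mat.mulVec := by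
  intro s t hst
  rw [main_mulVec, main_mulVec] at hst
  have h1 : ∑ k, (s k - t k) • F.dir k = 0 := by
    simp only [sub_smul, Finset.sum_sub_distrib]
    rw [hst, sub_self]
  have h2 := (Fintype.linearIndependent_iff.1 F.indep) (fun k => s k - t k) h1
  funext k
  exact sub_eq_zero.1 (h2 k)

theorem st_MAIN (hH : ST_HFACE) (hP : ST_PSTAB) (hC : ST_COVER) : ST_MAIN := by
  intro m n K p hp1 hp2 hfact F θ hθ hcyc i
  have hm0 : (0 : ℝ) < (m : ℝ) + 1 := by positivity
  have hm1 : (1 : ℝ) ≤ (m : ℝ) + 1 := by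
    have : (0 : ℝ) ≤ m := Nat.cast_nonneg m
    linarith
  have hp : 1 ≤ p := by
    refine le_trans ?_ hp1
    have : 1 / (8 * ((m : ℝ) + 1)) ≤ 1 / 8 := by
      apply one_div_le_one_div_of_le (by norm_num)
      linarith
    linarith
  obtain ⟨C, hC0, hface⟩ := hH (m + 1) n p (by omega) hp
  have hcast : ((m + 1 : ℕ) : ℝ) = (m : ℝ) + 1 := by push_cast; ring
  rw [hcast] at hface
  have hε : 0 < 1 - p / 2 := by linarith
  have hεm : 1 - p / 2 ≤ 1 / (16 * ((m + 1 : ℕ) : ℝ)) := by
    rw [hcast]
    have e1 : 1 / (8 * ((m : ℝ) + 1)) = 2 * (1 / (16 * ((m : ℝ) + 1))) := by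
      field_simp
      norm_num
    rw [e1] at hp1
    linarith
  have hPP := hP n (m + 1) (1 - p / 2) (by omega) hε hεm
  have e2 : (1 : ℝ) - (1 - p / 2) = p / 2 := by ring
  rw [e2] at hPP
  obtain ⟨c, hc0, hc1, hc2, hcW⟩ := hPP (F i).mat (main_injective (F i))
  set Λ : ℝ → ℝ := fun u => u ^ (p / 2) with hΛ
  set Mi := MM Λ (F i).mat with hMi
  have hMi0 : 0 < Mi := (hface (F i)).1
  set vol : Fin K → ℝ := fun j => (volume (F j).dom).toReal with hvol
  have hvol0 : ∀ j, 0 ≤ vol j := fun j => ENNReal.toReal_nonneg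
  -- the averaged covering inequality
  have h1 : vol i ≤ ∑ j ∈ univ.erase i,
      (∑ f, c f * |((F j).mat.submatrix f id).det / ((F i).mat.submatrix f id).det|) * vol j := by
    have h2 : ∀ f, c f * vol i ≤ c f * ∑ j ∈ univ.erase i,
        |((F j).mat.submatrix f id).det / ((F i).mat.submatrix f id).det| * vol j := by
      intro f
      by_cases hdet : ((F i).mat.submatrix f id).det = 0
      · rw [hc2 f hdet, zero_mul, zero_mul]
      · exact mul_le_mul_of_nonneg_left (hC m n K F θ hθ hcyc f i hdet) (hc0 f)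
    calc vol i = ∑ f, c f * vol i := by rw [← Finset.sum_mul, hc1, one_mul]
      _ ≤ ∑ f, c f * ∑ j ∈ univ.erase i,
        |((F j).mat.submatrix f id).det / ((F i).mat.submatrix f id).det| * vol j :=
          Finset.sum_le_sum fun f _ => h2 f
      _ = _ := by
        simp only [Finset.mul_sum, Finset.sum_mul]
        rw [Finset.sum_comm]
        refine Finset.sum_congr rfl fun j _ => Finset.sum_congr rfl fun f _ => ?_
        ring
  have h3 : C / Mi * vol i ≤ ∑ j ∈ univ.erase i, C / MM Λ (F j).mat * vol j := by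
    calc C / Mi * vol i ≤ C / Mi * ∑ j ∈ univ.erase i,
          (∑ f, c f * |((F j).mat.submatrix f id).det / ((F i).mat.submatrix f id).det|)
            * vol j := mul_le_mul_of_nonneg_left h1 (by positivity)
      _ = ∑ j ∈ univ.erase i, C / Mi *
          ((∑ f, c f * |((F j).mat.submatrix f id).det / ((F i).mat.submatrix f id).det|)
            * vol j) := by rw [Finset.mul_sum]
      _ ≤ _ := by
        refine Finset.sum_le_sum fun j _ => ?_
        rw [← mul_assoc]
        refine mul_le_mul_of_nonneg_right ?_ (hvol0 j)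
        have hMj0 : 0 < MM Λ (F j).mat := (hface (F j)).1
        have h4 := hcW (F j).mat (main_injective (F j))
        rw [div_mul_eq_mul_div, div_le_div_iff₀ hMi0 hMj0, mul_assoc]
        exact mul_le_mul_of_nonneg_left h4 hC0.le
  rw [(hface (F i)).2]
  have h5 : ∀ j, μH[(m : ℝ) + 1] ((F j).carrier (ENNReal.ofReal p))
      = ENNReal.ofReal (C / MM Λ (F j).mat * vol j) := fun j => (hface (F j)).2
  simp only [h5]
  rw [← ENNReal.ofReal_sum_of_nonneg]
  · exact ENNReal.ofReal_le_ofReal h3
  · intro j _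
    have hMj0 : 0 < MM Λ (F j).mat := (hface (F j)).1
    have := hvol0 j
    positivity

end Pool.Agent.Helper44.GF
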