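import Pool.Agent.Helper44.GF.Defs

open Finset MeasureTheory Filter Topology
open scoped ENNReal ContDiff

namespace Pool.Agent.Helper44.GF

section Boch

variable {X : Type} [Fintype X] [DecidableEq X]

/-- Summation by parts. -/
theorem boch_parts (hG : ST_GNZ) (W : Finset X → ℝ) (b : Finset X → X → ℝ) (hWb : Compat W b)
    (F G : Finset X → ℝ) :
    ∑ η, W η * (F η * gen b G η)
      = -∑ η, W η * ∑ x ∈ ηᶜ, b η x * (dd F η x * dd G η x) := by
  have h1 := hG X W b hWb (fun η y => F (insert y η) * dd G η y)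
  have h2 : ∑ η, W η * ∑ y ∈ η, F (insert y (η.erase y)) * dd G (η.erase y) y
      = ∑ η, W η * ∑ y ∈ η, F η * dd G (η.erase y) y := by
    refine Finset.sum_congr rfl fun η _ => ?_
    congr 1
    refine Finset.sum_congr rfl fun y hy => ?_
    rw [Finset.insert_erase hy]
  rw [h2] at h1
  have h3 : ∀ η, W η * (F η * gen b G η)
      = W η * ∑ x ∈ ηᶜ, b η x * (F η * dd G η x)
        - W η * ∑ y ∈ η, F η * dd G (η.erase y) y := by
    intro η
    unfold gen
    rw [← mul_sub]
    congr 1
    rw [mul_sub, Finset.mul_sum, Finset.mul_sum]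
    congr 1
    refine Finset.sum_congr rfl fun x _ => ?_
    ring
  rw [Finset.sum_congr rfl fun η _ => h3 η, Finset.sum_sub_distrib, h1, ← Finset.sum_sub_distrib,
    ← Finset.sum_neg_distrib]
  refine Finset.sum_congr rfl fun η _ => ?_
  rw [← mul_sub, ← Finset.sum_sub_distrib, ← mul_neg, ← Finset.sum_neg_distrib]
  congr 1
  refine Finset.sum_congr rfl fun x _ => ?_
  unfold dd
  ring

theorem boch_dd2_symm (g : Finset X → ℝ) (η : Finset X) (x y : X) :
    dd2 g η y x = dd2 g η x y := by
  unfold dd2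
  rw [Finset.insert_comm]
  ring

/-- The discrete derivative of the generator. -/
theorem boch_dd_gen (b : Finset X → X → ℝ) (g : Finset X → ℝ) (η : Finset X) (x : X)
    (hx : x ∉ η) :
    dd (gen b g) η x
      = ∑ y ∈ ηᶜ.erase x, (b (insert x η) y * dd g (insert x η) y - b η y * dd g η y)
        - b η x * dd g η x - dd g η x - ∑ y ∈ η, dd2 g (η.erase y) x y := by
  have h1 : (insert x η)ᶜ = ηᶜ.erase x := by
    ext y
    simp [not_or]
  have h2 : ∑ y ∈ insert x η, dd g ((insert x η).erase y) y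
      = dd g η x + ∑ y ∈ η, dd g ((insert x η).erase y) y := by
    rw [Finset.sum_insert hx, Finset.erase_insert hx]
  have h3 : ∑ y ∈ ηᶜ, b η y * dd g η y
      = b η x * dd g η x + ∑ y ∈ ηᶜ.erase x, b η y * dd g η y :=
    (Finset.add_sum_erase ηᶜ (fun y => b η y * dd g η y) (by simpa using hx)).symm
  have h4 : ∑ y ∈ η, dd2 g (η.erase y) x y
      = ∑ y ∈ η, dd g ((insert x η).erase y) y - ∑ y ∈ η, dd g (η.erase y) y := by
    rw [← Finset.sum_sub_distrib]
    refine Finset.sum_congr rfl fun y hy => ?_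
    have hxy : x ≠ y := fun h => hx (h ▸ hy)
    rw [Finset.erase_insert_of_ne hxy, ← boch_dd2_symm]
    unfold dd2 dd
    ring
  rw [h4]
  have h5 : dd (gen b g) η x = gen b g (insert x η) - gen b g η := rfl
  rw [h5]
  unfold gen
  rw [h1, h2, h3, Finset.sum_sub_distrib]
  ring

/-- Exchange of a double sum over distinct points. -/
theorem boch_swap (η : Finset X) (A : X → X → ℝ) :
    ∑ y ∈ ηᶜ, ∑ x ∈ ηᶜ.erase y, A x y = ∑ x ∈ ηᶜ, ∑ y ∈ ηᶜ.erase x, A x y := by
  apply Finset.sum_comm'
  intro y x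
  simp only [Finset.mem_compl, Finset.mem_erase, ne_eq]
  tauto

end Boch

theorem st_BOCH (hG : ST_GNZ) : ST_BOCH := by
  intro X _ _ W b k hWb hk g
  have hsymm : ∀ η x y, x ∉ η → y ∉ η → x ≠ y →
      W η * (b η x * b η y * k η y x) = W η * (b η x * b η y * k η x y) := by
    intro η x y hx hy hxy
    have e1 : W (insert x (insert y η)) = b η x * k η x y * (b η y * W η) := by
      rw [hWb (insert y η) x (by simp [hxy, hx]), hk η x y hx hy hxy, hWb η y hy]
    have e2 : W (insert y (insert x η)) = b η y * k η y x * (b η x * W η) := by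
      rw [hWb (insert x η) y (by simp [Ne.symm hxy, hy]), hk η y x hy hx (Ne.symm hxy), hWb η x hx]
    rw [Finset.insert_comm, e2] at e1
    linarith
  -- step one
  have h1 : ∑ η, W η * gen b g η ^ 2
      = -∑ η, W η * ∑ x ∈ ηᶜ, b η x * (dd (gen b g) η x * dd g η x) := by
    rw [← boch_parts hG W b hWb (gen b g) g]
    refine Finset.sum_congr rfl fun η _ => ?_
    ring
  -- step two
  have h2 : ∀ η, W η * ∑ x ∈ ηᶜ, b η x * (dd (gen b g) η x * dd g η x)
      = W η * (∑ x ∈ ηᶜ, ∑ y ∈ ηᶜ.erase x, (b η x * b η y * k η y x *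
            (dd g η x * dd g η y + dd g η x * dd2 g η x y) - b η x * b η y *
            (dd g η x * dd g η y)))
        - W η * ∑ x ∈ ηᶜ, b η x ^ 2 * dd g η x ^ 2
        - W η * ∑ x ∈ ηᶜ, b η x * dd g η x ^ 2
        - W η * ∑ y ∈ η, ∑ x ∈ ηᶜ, b η x * dd g η x * dd2 g (η.erase y) x y := by
    intro η
    rw [← mul_sub, ← mul_sub, ← mul_sub]
    congr 1
    have e1 : ∑ y ∈ η, ∑ x ∈ ηᶜ, b η x * dd g η x * dd2 g (η.erase y) x y
        = ∑ x ∈ ηᶜ, ∑ y ∈ η, b η x * dd g η x * dd2 g (η.erase y) x y := Finset.sum_comm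
    rw [e1, ← Finset.sum_sub_distrib, ← Finset.sum_sub_distrib, ← Finset.sum_sub_distrib]
    refine Finset.sum_congr rfl fun x hx => ?_
    have hx' : x ∉ η := by simpa using hx
    rw [boch_dd_gen b g η x hx']
    have e2 : ∑ y ∈ ηᶜ.erase x, (b η x * b η y * k η y x *
            (dd g η x * dd g η y + dd g η x * dd2 g η x y) - b η x * b η y *
            (dd g η x * dd g η y))
        = b η x * dd g η x * ∑ y ∈ ηᶜ.erase x,
          (b (insert x η) y * dd g (insert x η) y - b η y * dd g η y) := by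
      rw [Finset.mul_sum]
      refine Finset.sum_congr rfl fun y hy => ?_
      have hy1 : y ∉ η := by
        have := (Finset.mem_erase.1 hy).2
        simpa using this
      have hyx : y ≠ x := (Finset.mem_erase.1 hy).1
      rw [hk η y x hy1 hx' hyx]
      have e3 : dd g (insert x η) y = dd g η y + dd2 g η x y := by
        rw [← boch_dd2_symm]
        unfold dd dd2
        ring
      rw [e3]
      ring
    rw [e2, ← Finset.mul_sum]
    ring
  -- step three
  have h3 : ∑ η, W η * ∑ y ∈ η, ∑ x ∈ ηᶜ, b η x * dd g η x * dd2 g (η.erase y) x y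
      = ∑ η, W η * ∑ x ∈ ηᶜ, ∑ y ∈ ηᶜ.erase x, b η x * b η y * k η x y *
          ((dd g η x + dd2 g η x y) * dd2 g η x y) := by
    have e0 := hG X W b hWb (fun ζ y => ∑ x ∈ (insert y ζ)ᶜ,
      b (insert y ζ) x * dd g (insert y ζ) x * dd2 g ζ x y)
    have e1 : ∑ η, W η * ∑ y ∈ η, ∑ x ∈ (insert y (η.erase y))ᶜ,
          b (insert y (η.erase y)) x * dd g (insert y (η.erase y)) x * dd2 g (η.erase y) x y
        = ∑ η, W η * ∑ y ∈ η, ∑ x ∈ ηᶜ, b η x * dd g η x * dd2 g (η.erase y) x y := by
      refine Finset.sum_congr rfl fun η _ => ?_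
      congr 1
      refine Finset.sum_congr rfl fun y hy => ?_
      rw [Finset.insert_erase hy]
    rw [e1] at e0
    rw [e0]
    refine Finset.sum_congr rfl fun η _ => ?_
    congr 1
    rw [← boch_swap η (fun x y => b η x * b η y * k η x y *
          ((dd g η x + dd2 g η x y) * dd2 g η x y))]
    refine Finset.sum_congr rfl fun y hy => ?_
    have hy' : y ∉ η := by simpa using hy
    have e2 : (insert y η)ᶜ = ηᶜ.erase y := by
      ext z
      simp [not_or]
    rw [e2, Finset.mul_sum]
    refine Finset.sum_congr rfl fun x hx => ?_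
    have hx1 : x ∉ η := by
      have := (Finset.mem_erase.1 hx).2
      simpa using this
    have hxy : x ≠ y := (Finset.mem_erase.1 hx).1
    rw [hk η x y hx1 hy' hxy]
    have e3 : dd g (insert y η) x = dd g η x + dd2 g η x y := by
      unfold dd dd2
      ring
    rw [e3]
    ring
  rw [h1, Finset.sum_congr rfl fun η _ => h2 η, Finset.sum_sub_distrib, Finset.sum_sub_distrib,
    Finset.sum_sub_distrib, h3]
  have h4 : ∑ η, W η * (∑ x ∈ ηᶜ, ∑ y ∈ ηᶜ.erase x, (b η x * b η y * k η y x *
            (dd g η x * dd g η y + dd g η x * dd2 g η x y) - b η x * b η y *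
            (dd g η x * dd g η y)))
      = ∑ η, W η * (∑ x ∈ ηᶜ, ∑ y ∈ ηᶜ.erase x, (b η x * b η y * k η x y *
            (dd g η x * dd g η y + dd g η x * dd2 g η x y) - b η x * b η y *
            (dd g η x * dd g η y))) := by
    refine Finset.sum_congr rfl fun η _ => ?_
    rw [Finset.mul_sum, Finset.mul_sum]
    refine Finset.sum_congr rfl fun x hx => ?_
    rw [Finset.mul_sum, Finset.mul_sum]
    refine Finset.sum_congr rfl fun y hy => ?_
    have hx' : x ∉ η := by simpa using hx
    have hy1 : y ∉ η := by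
      have := (Finset.mem_erase.1 hy).2
      simpa using this
    have hyx : y ≠ x := (Finset.mem_erase.1 hy).1
    have := hsymm η x y hx' hy1 (Ne.symm hyx)
    linear_combination (dd g η x * dd g η y + dd g η x * dd2 g η x y) * this
  rw [h4]
  have h5 : ∑ η, W η * ∑ x ∈ ηᶜ, ∑ y ∈ ηᶜ.erase x, b η x * b η y *
            ((1 - k η x y) * (dd g η x * dd g η y) + k η x y * dd2 g η x y ^ 2)
      = ∑ η, W η * ∑ x ∈ ηᶜ, ∑ y ∈ ηᶜ.erase x, b η x * b η y * k η x y *
          ((dd g η x + dd2 g η x y) * dd2 g η x y)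
        - ∑ η, W η * (∑ x ∈ ηᶜ, ∑ y ∈ ηᶜ.erase x, (b η x * b η y * k η x y *
            (dd g η x * dd g η y + dd g η x * dd2 g η x y) - b η x * b η y *
            (dd g η x * dd g η y))) := by
    rw [← Finset.sum_sub_distrib]
    refine Finset.sum_congr rfl fun η _ => ?_
    rw [← mul_sub, ← Finset.sum_sub_distrib]
    congr 1
    refine Finset.sum_congr rfl fun x _ => ?_
    rw [← Finset.sum_sub_distrib]
    refine Finset.sum_congr rfl fun y _ => ?_
    ring
  rw [h5]
  unfold dir
  ring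

end Pool.Agent.Helper44.GF
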