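import Pool.Agent.Helper44.GF.Defs

open Finset MeasureTheory Filter Topology
open scoped ENNReal ContDiff

namespace Pool.Agent.Helper44.GF

theorem gnz_sum {X : Type} [Fintype X] [DecidableEq X] (A B : Finset X → X → ℝ)
    (h : ∀ η y, y ∉ η → A (insert y η) y = B η y) :
    ∑ η : Finset X, ∑ y ∈ η, A η y = ∑ η : Finset X, ∑ y ∈ ηᶜ, B η y := by
  have e1 : ∑ η : Finset X, ∑ y ∈ η, A η y
      = ∑ y : X, ∑ η ∈ univ.filter (fun η : Finset X => y ∈ η), A η y := by
    apply Finset.sum_comm'
    intro η y
    simp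
  have e2 : ∑ η : Finset X, ∑ y ∈ ηᶜ, B η y
      = ∑ y : X, ∑ η ∈ univ.filter (fun η : Finset X => y ∉ η), B η y := by
    apply Finset.sum_comm'
    intro η y
    simp
  rw [e1, e2]
  refine Finset.sum_congr rfl fun y _ => ?_
  refine Finset.sum_bij' (fun η _ => η.erase y) (fun η _ => insert y η) ?_ ?_ ?_ ?_ ?_
  · intro η _
    simp
  · intro η _
    simp
  · intro η hη
    exact Finset.insert_erase (by simpa using hη)
  · intro η hη
    exact Finset.erase_insert (by simpa using hη)
  · intro η hη
    have hy : y ∈ η := by simpa using hη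
    rw [← h (η.erase y) y (Finset.notMem_erase y η), Finset.insert_erase hy]

theorem st_GNZ : ST_GNZ := by
  intro X _ _ W b hWb F
  have h := gnz_sum (fun η y => W η * F (η.erase y) y) (fun η y => W η * (b η y * F η y)) ?_
  · simpa only [← Finset.mul_sum] using h
  · intro η y hy
    rw [Finset.erase_insert hy, hWb η y hy]
    ring

end Pool.Agent.Helper44.GF
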