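import Pool.Agent.Helper44.GF.Defs

open Finset MeasureTheory Filter Topology
open scoped ENNReal ContDiff

namespace Pool.Agent.Helper44.GF

theorem mf2_tau {n : ℕ} {Y : Type} [Fintype Y] [DecidableEq Y] (d : ℝ) (r : Y → ℝ)
    (η : Finset (Fin n × Y)) (x : Fin n × Y) (hx : x ∉ η) :
    tau d r (insert x η) = Function.update (tau d r η) x.1 (tau d r η x.1 + r x.2) := by
  funext i
  by_cases hi : i = x.1
  · subst hi
    rw [Function.update_self]
    unfold tau
    rw [add_assoc]
    congr 1
    have h1 : ∀ y : Y, (if (x.1, y) ∈ insert x η then r y else 0)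
        = (if (x.1, y) ∈ η then r y else 0) + if y = x.2 then r y else 0 := by
      intro y
      by_cases hy : y = x.2
      · subst hy
        have h2 : (x.1, x.2) = x := rfl
        rw [if_pos (by simp), if_neg (by rw [h2]; exact hx), if_pos rfl, zero_add]
      · rw [if_neg hy, add_zero]
        have h3 : (x.1, y) ≠ x := fun h => hy (by rw [← h])
        have h4 : ((x.1, y) ∈ insert x η) ↔ ((x.1, y) ∈ η) := by
          rw [Finset.mem_insert]
          exact or_iff_right h3
        by_cases h5 : (x.1, y) ∈ η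
        · rw [if_pos (h4.2 h5), if_pos h5]
        · rw [if_neg (fun h => h5 (h4.1 h)), if_neg h5]
    rw [Finset.sum_congr rfl fun y _ => h1 y, Finset.sum_add_distrib]
    congr 1
    rw [Finset.sum_ite_eq' univ x.2 r, if_pos (Finset.mem_univ _)]
  · rw [Function.update_of_ne hi]
    unfold tau
    congr 1
    refine Finset.sum_congr rfl fun y _ => ?_
    have h3 : (i, y) ≠ x := fun h => hi (by rw [← h])
    have h4 : ((i, y) ∈ insert x η) ↔ ((i, y) ∈ η) := by
      rw [Finset.mem_insert]
      exact or_iff_right h3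
    by_cases h5 : (i, y) ∈ η
    · rw [if_pos (h4.2 h5), if_pos h5]
    · rw [if_neg (fun h => h5 (h4.1 h)), if_neg h5]

theorem st_MF2 (h1 : ST_MF1) : ST_MF2 := by
  intro n m Y ι _ _ _ S a r z d hS
  have hA : ∀ (η : Finset (Fin n × Y)) (y : Fin n × Y) (i : Fin n), y ∉ η →
      A1 S a (tau d r (insert y η)) i
        = A1 S a (tau d r η) i + r y.2 * A2 S a (tau d r η) i y.1 := by
    intro η y i hy
    rw [mf2_tau d r η y hy]
    exact (h1 n m ι S a hS (tau d r η)).2.1 i y.1 (r y.2)
  refine ⟨fun η x hx => mf2_tau d r η x hx, ?_, ?_, hA, ?_⟩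
  · intro η x hx
    unfold wt bet
    rw [Finset.prod_insert hx, mf2_tau d r η x hx,
      (h1 n m ι S a hS (tau d r η)).1 x.1 (r x.2), neg_add, Real.exp_add]
    ring
  · intro η x y hx hy hxy
    unfold bet kk
    rw [hA η y x.1 hy, mul_assoc, ← Real.exp_add]
    congr 2
    ring
  · intro η y i j hy hij
    rw [mf2_tau d r η y hy]
    exact (h1 n m ι S a hS (tau d r η)).2.2.1 i j y.1 (r y.2) hij

end Pool.Agent.Helper44.GF
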