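import Pool.Agent.Helper44.GF.Defs

open Finset MeasureTheory Filter Topology
open scoped ENNReal ContDiff

namespace Pool.Agent.Helper44.GF

theorem st_MF3 : ST_MF3 := by
  intro n m Y ι _ _ _ S a r z d s h η
  have htau : ∀ i, d ≤ tau d r η i := by
    intro i
    unfold tau
    have : 0 ≤ ∑ y, if (i, y) ∈ η then r y else 0 := by
      refine Finset.sum_nonneg fun y _ => ?_
      split_ifs
      · exact (h.hr y).le
      · exact le_refl 0
    linarith
  have htau0 : ∀ i, 0 < tau d r η i := fun i => h.hd.trans_le (htau i)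
  have hprod : ∀ s : Finset (Fin n), 0 < ∏ k ∈ s, tau d r η k := fun s =>
    Finset.prod_pos fun k _ => htau0 k
  have hA1 : ∀ i, 0 < A1 S a (tau d r η) i := by
    intro i
    unfold A1
    obtain ⟨I, hI⟩ := h.hcov i
    refine Finset.sum_pos' (fun J _ => ?_) ⟨I, Finset.mem_univ I, ?_⟩
    · split_ifs
      · exact (mul_pos (h.ha J) (hprod _)).le
      · exact le_refl 0
    · rw [if_pos hI]
      exact mul_pos (h.ha I) (hprod _)
  have hA2 : ∀ i j, 0 ≤ A2 S a (tau d r η) i j := by
    intro i j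
    unfold A2
    refine Finset.sum_nonneg fun J _ => ?_
    split_ifs
    · exact (mul_pos (h.ha J) (hprod _)).le
    · exact le_refl 0
  have hsymm : ∀ i j, A2 S a (tau d r η) i j = A2 S a (tau d r η) j i := by
    intro i j
    unfold A2
    refine Finset.sum_congr rfl fun I _ => ?_
    by_cases h : i ≠ j ∧ i ∈ S I ∧ j ∈ S I
    · rw [if_pos h, if_pos (show j ≠ i ∧ j ∈ S I ∧ i ∈ S I from ⟨Ne.symm h.1, h.2.2, h.2.1⟩),
        Finset.erase_right_comm]
    · rw [if_neg h, if_neg]
      exact fun h' => h ⟨Ne.symm h'.1, h'.2.2, h'.2.1⟩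
  refine ⟨htau, hA1, hA2, ?_, ?_, ?_, ?_, ?_⟩
  · unfold wt
    exact mul_pos (Finset.prod_pos fun x _ => h.hz _) (Real.exp_pos _)
  · intro x
    unfold bet
    exact mul_pos (h.hz _) (Real.exp_pos _)
  · intro x y
    unfold kk
    exact Real.exp_pos _
  · intro x y
    unfold kk
    rw [Real.exp_le_one_iff, neg_nonpos]
    exact mul_nonneg (mul_pos (h.hr _) (h.hr _)).le (hA2 _ _)
  · intro x y
    unfold kk
    rw [hsymm x.1 y.1, mul_comm (r x.2) (r y.2)]

end Pool.Agent.Helper44.GF
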