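import Pool.Agent.Helper44.GF.Defs

open Finset MeasureTheory Filter Topology
open scoped ENNReal ContDiff

namespace Pool.Agent.Helper44.GF

theorem pstab_grid (hF : ST_FINP) (hL : ST_LIM) (hG : ST_GH1) (hGL : ST_GLIM) (n m : ℕ)
    (hm : 1 ≤ m) (ρ ε c : ℝ) (hρ : 1 < ρ) (hε : 0 < ε) (hε2 : ε ≤ 1 / 2) (hc : 0 < c)
    (hs : ρ * ε ≤ 1 / (15 * m)) : PP n m (Lr ρ ε c) := by
  obtain ⟨M, a, b, ha, hM, hz1, hcont, hlow, hlim⟩ := hGL ρ ε c hρ hε hε2 hc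
  refine hL n m (fun N => lam (gd ρ ε c N) (gr ρ N (M N)) (gz ρ ε c N (M N))) _ a b ha hcont hlow
    hlim ?_
  intro N
  have hρ0 : 0 < ρ := by linarith
  have hMpos : (0 : ℝ) < M N := by
    have := hM N
    exact_mod_cast this
  have hr : ∀ y, 0 < gr ρ N (M N) y := fun y => by
    unfold gr
    exact zpow_pos hρ0 _
  have hz : ∀ y, 0 < gz ρ ε c N (M N) y := fun y => by
    unfold gz
    have := Real.rpow_pos_of_pos hρ0 (-((1 - ε) * (((y.1 : ℕ) : ℝ) - (N : ℝ))))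
    positivity
  have hd : 0 < gd ρ ε c N := by
    unfold gd
    have h1 := Real.rpow_pos_of_pos hρ0 (-(ε * (N : ℝ)))
    have h2 : 1 < ρ ^ ε := Real.one_lt_rpow hρ hε
    have h3 : 0 < ρ ^ ε - 1 := by linarith
    positivity
  exact hF n m _ (gr ρ N (M N)) (gz ρ ε c N (M N)) (gd ρ ε c N) (ρ * ε) hm hr hz (hz1 N) hd
    (by positivity) hs (hG ρ ε c N (M N) hρ hε (by linarith) hc (hM N))

theorem st_PSTAB (hF : ST_FINP) (hL : ST_LIM) (hG : ST_GH1) (hLR : ST_LR) (hGL : ST_GLIM)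
    (hRL : ST_RLIM) : ST_PSTAB := by
  intro n m ε hm hε hεm
  have hm1 : (1 : ℝ) ≤ m := by exact_mod_cast hm
  have hε2 : ε ≤ 1 / 2 := by
    refine hεm.trans ?_
    rw [div_le_div_iff₀ (by positivity) (by norm_num)]
    linarith
  obtain ⟨ρ, c, a, b, ha, hρ1, hρ2, hc, hlow, hlim⟩ := hRL ε hε hε2
  refine hL n m (fun k => Lr (ρ k) ε (c k)) _ a b ha ?_ hlow hlim ?_
  · intro k
    exact (hLR (ρ k) ε (c k) (hρ1 k) hε (by linarith) (hc k)).2.1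
  · intro k
    refine pstab_grid hF hL hG hGL n m hm (ρ k) ε (c k) (hρ1 k) hε hε2 (hc k) ?_
    have h1 : ρ k * ε ≤ 16 / 15 * (1 / (16 * m)) :=
      mul_le_mul (hρ2 k) hεm hε.le (by norm_num)
    refine h1.trans (le_of_eq ?_)
    field_simp

end Pool.Agent.Helper44.GF
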