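import Pool.Agent.Helper20.GF.ISOD
import Pool.Agent.Helper21.GF.BALL
import Pool.Agent.Helper23.GF.HFACE
import Pool.Agent.Helper28.GF.HB
import Pool.Agent.Helper28.GF.LOWB
import Pool.Agent.Helper28.GF.LR
import Pool.Agent.Helper3.GF.CONV
import Pool.Agent.Helper30.GF.GAP
import Pool.Agent.Helper37.GF.GH1
import Pool.Agent.Helper37.GF.LIM
import Pool.Agent.Helper44.GF.BOCH
import Pool.Agent.Helper44.GF.GNZ
import Pool.Agent.Helper44.GF.MAIN
import Pool.Agent.Helper44.GF.MF1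
import Pool.Agent.Helper44.GF.MF2
import Pool.Agent.Helper44.GF.MF3
import Pool.Agent.Helper44.GF.PSTAB
import Pool.Agent.Helper45.GF.CF
import Pool.Agent.Helper47.GF.FINP
import Pool.Agent.Helper47.GF.RLIM
import Pool.Agent.Helper52.GF.TFORM
import Pool.Agent.Helper55.GF.GLIM
import Pool.Agent.Helper63.GF.SCH
import Pool.Agent.Helper72.GF.COVER
import Pool.Agent.Helper78.GF.SC
import Pool.Agent.Helper84.GF.LOGC
import Pool.Agent.Helper85.GF.HBALL
import Pool.Agent.Helper94.GF.ENER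
import Pool.Agent.Helper94.GF.LINK
import Pool.Agent.Helper95.GF.VARM

/-! Assembly of the face inequality. -/

namespace Pool.Agent.Helper44.GF

theorem all_SC2 : ST_SC2 := st_SC2 st_SC1 st_SH2

theorem all_MF2 : ST_MF2 := st_MF2 st_MF1

theorem all_CONV : ST_CONV := st_CONV st_GNZ st_MF1 all_MF2 st_MF3

theorem all_LOWB : ST_LOWB :=
  st_LOWB (st_BOCH st_GNZ) (st_SCH all_SC2 st_MF1 st_MF3) all_CONV all_MF2 st_MF3

theorem all_VARM : ST_VARM :=
  st_VARM (st_GAP st_GNZ) all_LOWB (st_ENER st_GNZ st_MF1 all_MF2 st_MF3) all_MF2 st_MF3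

theorem all_BALL : ST_BALL := st_BALL (st_LOGC all_VARM)

theorem all_FINP : ST_FINP := st_FINP all_BALL st_HB st_LINK

theorem all_PSTAB : ST_PSTAB :=
  st_PSTAB all_FINP st_LIM st_GH1 st_LR (st_GLIM st_LR) (st_RLIM st_LR)

theorem all_MAIN : ST_MAIN :=
  st_MAIN (st_HFACE (st_HBALL st_ISOD)) all_PSTAB (st_COVER (st_CF st_TFORM))

end Pool.Agent.Helper44.GF
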