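import Mathlib

/-!
# Face inequality for polyhedral cycles in `ℓ^p_n`, `2 - 1/(8m) ≤ p < 2` (MP_d210aa_gt)

Definitions and the statements of all modules.
-/

open Finset MeasureTheory Filter Topology
open scoped ENNReal ContDiff

namespace Pool.Agent.Helper44.GF

/-! ## A. Gibbs measures on finite sets: abstract part -/

/-- The discrete derivative. -/
def dd {X : Type} [DecidableEq X] (g : Finset X → ℝ) (η : Finset X) (x : X) : ℝ :=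
  g (insert x η) - g η

/-- The second discrete derivative. -/
def dd2 {X : Type} [DecidableEq X] (g : Finset X → ℝ) (η : Finset X) (x y : X) : ℝ :=
  g (insert x (insert y η)) - g (insert x η) - g (insert y η) + g η

/-- The generator of the birth and death chain with birth rates `b` and death rates one. -/
def gen {X : Type} [Fintype X] [DecidableEq X] (b : Finset X → X → ℝ) (g : Finset X → ℝ)
    (η : Finset X) : ℝ :=
  ∑ x ∈ ηᶜ, b η x * dd g η x - ∑ x ∈ η, dd g (η.erase x) x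

/-- The Dirichlet form. -/
def dir {X : Type} [Fintype X] [DecidableEq X] (W : Finset X → ℝ) (b : Finset X → X → ℝ)
    (g : Finset X → ℝ) : ℝ :=
  ∑ η, W η * ∑ x ∈ ηᶜ, b η x * dd g η x ^ 2

/-- The weights `W` and the birth rates `b` are compatible. -/
def Compat {X : Type} [DecidableEq X] (W : Finset X → ℝ) (b : Finset X → X → ℝ) : Prop :=
  ∀ η x, x ∉ η → W (insert x η) = b η x * W η

def ST_GNZ : Prop :=
  ∀ (X : Type) [Fintype X] [DecidableEq X] (W : Finset X → ℝ) (b : Finset X → X → ℝ),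
    Compat W b → ∀ F : Finset X → X → ℝ,
      ∑ η, W η * ∑ y ∈ η, F (η.erase y) y = ∑ η, W η * ∑ y ∈ ηᶜ, b η y * F η y

def ST_BOCH : Prop :=
  ∀ (X : Type) [Fintype X] [DecidableEq X] (W : Finset X → ℝ) (b : Finset X → X → ℝ)
    (k : Finset X → X → X → ℝ), Compat W b →
    (∀ η x y, x ∉ η → y ∉ η → x ≠ y → b (insert y η) x = b η x * k η x y) →
    ∀ g : Finset X → ℝ,
      ∑ η, W η * gen b g η ^ 2 = dir W b g
        + ∑ η, W η * ∑ x ∈ ηᶜ, b η x ^ 2 * dd g η x ^ 2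
        + ∑ η, W η * ∑ x ∈ ηᶜ, ∑ y ∈ ηᶜ.erase x, b η x * b η y *
            ((1 - k η x y) * (dd g η x * dd g η y) + k η x y * dd2 g η x y ^ 2)

def ST_GAP : Prop :=
  ∀ (X : Type) [Fintype X] [DecidableEq X] (W : Finset X → ℝ) (b : Finset X → X → ℝ),
    (∀ η, 0 < W η) → (∀ η x, 0 < b η x) → Compat W b →
    ∀ κ : ℝ, 0 < κ → (∀ g, κ * dir W b g ≤ ∑ η, W η * gen b g η ^ 2) →
    ∀ f : Finset X → ℝ,
      (∑ η, W η) * (∑ η, W η * f η ^ 2) - (∑ η, W η * f η) ^ 2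
        ≤ κ⁻¹ * (∑ η, W η) * dir W b f

/-! ## B. Scalar inequalities -/

/-- `m(t) = d + ∑ z r exp(-t r)`. -/
noncomputable def m1 {Y : Type} [Fintype Y] (d : ℝ) (r z : Y → ℝ) (t : ℝ) : ℝ :=
  d + ∑ y, z y * r y * Real.exp (-(t * r y))

/-- The sum restricted to `r y * B ≤ A`. -/
noncomputable def m1c {Y : Type} [Fintype Y] (d : ℝ) (r z : Y → ℝ) (A B t : ℝ) : ℝ :=
  d + ∑ y, if r y * B ≤ A then z y * r y * Real.exp (-(t * r y)) else 0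

/-- The regular variation hypothesis `-t m'(t) ≤ s m(t)`. -/
def H1 {Y : Type} [Fintype Y] (d : ℝ) (r z : Y → ℝ) (s : ℝ) : Prop :=
  ∀ t, 0 < t → t * ∑ y, z y * r y ^ 2 * Real.exp (-(t * r y)) ≤ s * m1 d r z t

def ST_SC1 : Prop :=
  ∀ (Y : Type) [Fintype Y] (r z : Y → ℝ) (d s : ℝ), (∀ y, 0 < r y) → (∀ y, 0 ≤ z y) → 0 ≤ d →
    0 < s → s < 1 → H1 d r z s → ∀ a T, 0 < a → a ≤ T →
    ∑ y, z y * Real.exp (-(a * r y)) * (1 - Real.exp (-((T - a) * r y))) * (r y * a + s)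
      ≤ 2 * s / (1 - s) * (T - a) * m1 d r z T

def ST_SH2 : Prop :=
  ∀ (Y : Type) [Fintype Y] (r z : Y → ℝ) (d s : ℝ), (∀ y, 0 < r y) → (∀ y, 0 ≤ z y) → 0 ≤ d →
    0 < s → s ≤ 1 / 2 → H1 d r z s → ∀ a R v, 0 < a → 0 < R → 0 ≤ v → v ≤ a * R →
    v / (v + s) * m1 d r z a ≤ 4 / 3 * m1c d r z R 1 a

def ST_SC2 : Prop :=
  ∀ (Y : Type) [Fintype Y] (r z : Y → ℝ) (d s : ℝ), (∀ y, 0 < r y) → (∀ y, 0 ≤ z y) → 0 ≤ d →
    0 < s → s ≤ 1 / 2 → H1 d r z s → ∀ a A B q, 0 < a → 0 < A → 0 ≤ B → 0 < q →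
    ∑ y, z y * Real.exp (-(a * r y)) * (1 - Real.exp (-(q * r y * B))) * (r y * a + s)
      ≤ 8 * s / (3 * (1 - s)) * (q * A + s) * (B / A) * m1c d r z A B (a + q * B)

/-! ## C. The finite model -/

section Model

variable {n : ℕ} {Y ι : Type} [Fintype Y] [DecidableEq Y] [Fintype ι]

/-- The value of the `i`-th variable in the configuration `η`. -/
noncomputable def tau (d : ℝ) (r : Y → ℝ) (η : Finset (Fin n × Y)) (i : Fin n) : ℝ :=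
  d + ∑ y, if (i, y) ∈ η then r y else 0

/-- The polynomial `∑ a_I τ^I`. -/
def pol (S : ι → Finset (Fin n)) (a : ι → ℝ) (τ : Fin n → ℝ) : ℝ := ∑ I, a I * ∏ i ∈ S I, τ i

/-- The first derivative. -/
def A1 (S : ι → Finset (Fin n)) (a : ι → ℝ) (τ : Fin n → ℝ) (i : Fin n) : ℝ :=
  ∑ I, if i ∈ S I then a I * ∏ k ∈ (S I).erase i, τ k else 0

/-- The second derivative. -/
def A2 (S : ι → Finset (Fin n)) (a : ι → ℝ) (τ : Fin n → ℝ) (i j : Fin n) : ℝ :=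
  ∑ I, if i ≠ j ∧ i ∈ S I ∧ j ∈ S I then a I * ∏ k ∈ ((S I).erase i).erase j, τ k else 0

def ST_MF1 : Prop :=
  ∀ (n m : ℕ) (ι : Type) [Fintype ι] (S : ι → Finset (Fin n)) (a : ι → ℝ),
    (∀ I, (S I).card = m) → ∀ τ : Fin n → ℝ,
    (∀ i (c : ℝ), pol S a (Function.update τ i (τ i + c)) = pol S a τ + c * A1 S a τ i) ∧
    (∀ i j (c : ℝ), A1 S a (Function.update τ j (τ j + c)) i = A1 S a τ i + c * A2 S a τ i j) ∧
    (∀ i j k (c : ℝ), k = i ∨ k = j → A2 S a (Function.update τ k (τ k + c)) i j = A2 S a τ i j) ∧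
    (∀ i j, A2 S a τ i j = A2 S a τ j i) ∧
    (∀ i, A2 S a τ i i = 0) ∧
    (∀ i, ∑ j, A2 S a τ i j * τ j = ((m : ℝ) - 1) * A1 S a τ i) ∧
    (∑ i, τ i * A1 S a τ i = m * pol S a τ)

/-- The weight of a configuration. -/
noncomputable def wt (S : ι → Finset (Fin n)) (a : ι → ℝ) (d : ℝ) (r z : Y → ℝ)
    (η : Finset (Fin n × Y)) : ℝ :=
  (∏ x ∈ η, z x.2) * Real.exp (-pol S a (tau d r η))

/-- The birth rates. -/
noncomputable def bet (S : ι → Finset (Fin n)) (a : ι → ℝ) (d : ℝ) (r z : Y → ℝ)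
    (η : Finset (Fin n × Y)) (x : Fin n × Y) : ℝ :=
  z x.2 * Real.exp (-(r x.2 * A1 S a (tau d r η) x.1))

/-- The interaction. -/
noncomputable def kk (S : ι → Finset (Fin n)) (a : ι → ℝ) (d : ℝ) (r : Y → ℝ)
    (η : Finset (Fin n × Y)) (x y : Fin n × Y) : ℝ :=
  Real.exp (-(r x.2 * r y.2 * A2 S a (tau d r η) x.1 y.1))

end Model

def ST_MF2 : Prop :=
  ∀ (n m : ℕ) (Y ι : Type) [Fintype Y] [DecidableEq Y] [Fintype ι] (S : ι → Finset (Fin n))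
    (a : ι → ℝ) (r z : Y → ℝ) (d : ℝ), (∀ I, (S I).card = m) →
    (∀ (η : Finset (Fin n × Y)) (x : Fin n × Y), x ∉ η →
      tau d r (insert x η) = Function.update (tau d r η) x.1 (tau d r η x.1 + r x.2)) ∧
    Compat (wt S a d r z) (bet S a d r z) ∧
    (∀ (η : Finset (Fin n × Y)) (x y : Fin n × Y), x ∉ η → y ∉ η → x ≠ y →
      bet S a d r z (insert y η) x = bet S a d r z η x * kk S a d r η x y) ∧
    (∀ (η : Finset (Fin n × Y)) (y : Fin n × Y) (i : Fin n), y ∉ η →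
      A1 S a (tau d r (insert y η)) i
        = A1 S a (tau d r η) i + r y.2 * A2 S a (tau d r η) i y.1) ∧
    (∀ (η : Finset (Fin n × Y)) (y : Fin n × Y) (i j : Fin n), y ∉ η → y.1 = i ∨ y.1 = j →
      A2 S a (tau d r (insert y η)) i j = A2 S a (tau d r η) i j)

/-- The standing hypotheses on the finite model. -/
structure MH {n : ℕ} {Y ι : Type} [Fintype Y] [DecidableEq Y] [Fintype ι] (m : ℕ)
    (S : ι → Finset (Fin n)) (a : ι → ℝ) (r z : Y → ℝ) (d s : ℝ) : Prop where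
  hm : 1 ≤ m
  hS : ∀ I, (S I).card = m
  hcov : ∀ i, ∃ I, i ∈ S I
  ha : ∀ I, 0 < a I
  hr : ∀ y, 0 < r y
  hz : ∀ y, 0 < z y
  hz1 : ∀ y, z y ≤ 1
  hd : 0 < d
  hs : 0 < s
  hsm : s ≤ 1 / (15 * m)
  h1 : H1 d r z s

/-- Positivity facts. -/
def ST_MF3 : Prop :=
  ∀ (n m : ℕ) (Y ι : Type) [Fintype Y] [DecidableEq Y] [Fintype ι] (S : ι → Finset (Fin n))
    (a : ι → ℝ) (r z : Y → ℝ) (d s : ℝ), MH m S a r z d s →
    ∀ η : Finset (Fin n × Y),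
      (∀ i, d ≤ tau d r η i) ∧ (∀ i, 0 < A1 S a (tau d r η) i) ∧
      (∀ i j, 0 ≤ A2 S a (tau d r η) i j) ∧ 0 < wt S a d r z η ∧
      (∀ x, 0 < bet S a d r z η x) ∧ (∀ x y, 0 < kk S a d r η x y) ∧
      (∀ x y, kk S a d r η x y ≤ 1) ∧ (∀ x y, kk S a d r η x y = kk S a d r η y x)

/-- The quantity estimated by the Schur test. -/
noncomputable def sch {n : ℕ} {Y ι : Type} [Fintype Y] [DecidableEq Y] [Fintype ι]
    (S : ι → Finset (Fin n)) (a : ι → ℝ) (r z : Y → ℝ) (d : ℝ) (η : Finset (Fin n × Y))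
    (x : Fin n × Y) : ℝ :=
  ∑ j, A2 S a (tau d r η) x.1 j / A1 S a (tau d r η) x.1
    * m1c d r z (A1 S a (tau d r η) x.1) (A2 S a (tau d r η) x.1 j)
      (A1 S a (tau d r η) j + r x.2 * A2 S a (tau d r η) x.1 j)

def ST_SCH : Prop :=
  ∀ (n m : ℕ) (Y ι : Type) [Fintype Y] [DecidableEq Y] [Fintype ι] (S : ι → Finset (Fin n))
    (a : ι → ℝ) (r z : Y → ℝ) (d s : ℝ), MH m S a r z d s →
    ∀ (η : Finset (Fin n × Y)) (u : Fin n × Y → ℝ),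
      -(8 * s / (3 * (1 - s)) * ∑ x ∈ ηᶜ, bet S a d r z η x * u x ^ 2 * sch S a r z d η x)
      ≤ ∑ x ∈ ηᶜ, ∑ y ∈ ηᶜ.erase x, bet S a d r z η x * bet S a d r z η y *
          ((1 - kk S a d r η x y) * (u x * u y))

/-- The second order term. -/
noncomputable def P2 {n : ℕ} {Y ι : Type} [Fintype Y] [DecidableEq Y] [Fintype ι]
    (S : ι → Finset (Fin n)) (a : ι → ℝ) (r z : Y → ℝ) (d : ℝ)
    (g : Finset (Fin n × Y) → ℝ) : ℝ :=
  ∑ η, wt S a d r z η * ∑ x ∈ ηᶜ, ∑ y ∈ ηᶜ.erase x, bet S a d r z η x * bet S a d r z η y *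
    (kk S a d r η x y * dd2 g η x y ^ 2)

def ST_CONV : Prop :=
  ∀ (n m : ℕ) (Y ι : Type) [Fintype Y] [DecidableEq Y] [Fintype ι] (S : ι → Finset (Fin n))
    (a : ι → ℝ) (r z : Y → ℝ) (d s : ℝ), MH m S a r z d s →
    ∀ g : Finset (Fin n × Y) → ℝ,
      ∑ η, wt S a d r z η * ∑ x ∈ ηᶜ, bet S a d r z η x * dd g η x ^ 2 * sch S a r z d η x
      ≤ 4 * ((m : ℝ) - 1) * dir (wt S a d r z) (bet S a d r z) g + 3 * P2 S a r z d g

def ST_LOWB : Prop :=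
  ∀ (n m : ℕ) (Y ι : Type) [Fintype Y] [DecidableEq Y] [Fintype ι] (S : ι → Finset (Fin n))
    (a : ι → ℝ) (r z : Y → ℝ) (d s : ℝ), MH m S a r z d s →
    ∀ g : Finset (Fin n × Y) → ℝ,
      4 / 15 * dir (wt S a d r z) (bet S a d r z) g
        ≤ ∑ η, wt S a d r z η * gen (bet S a d r z) g η ^ 2

def ST_ENER : Prop :=
  ∀ (n m : ℕ) (Y ι : Type) [Fintype Y] [DecidableEq Y] [Fintype ι] (S : ι → Finset (Fin n))
    (ξ e : ι → ℝ) (r z : Y → ℝ) (d s : ℝ), MH m S (fun I => ξ I ^ 2) r z d s →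
      dir (wt S (fun I => ξ I ^ 2) d r z) (bet S (fun I => ξ I ^ 2) d r z)
        (fun η => pol S (fun I => ξ I * e I) (tau d r η))
      ≤ 2 * m * s * ∑ η, wt S (fun I => ξ I ^ 2) d r z η * pol S (fun I => e I ^ 2) (tau d r η)

/-- The hypotheses on the model without the weights. -/
structure MH0 {n : ℕ} {Y ι : Type} [Fintype Y] [DecidableEq Y] [Fintype ι] (m : ℕ)
    (S : ι → Finset (Fin n)) (r z : Y → ℝ) (d s : ℝ) : Prop where
  hm : 1 ≤ m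
  hS : ∀ I, (S I).card = m
  hcov : ∀ i, ∃ I, i ∈ S I
  hr : ∀ y, 0 < r y
  hz : ∀ y, 0 < z y
  hz1 : ∀ y, z y ≤ 1
  hd : 0 < d
  hs : 0 < s
  hsm : s ≤ 1 / (15 * m)
  h1 : H1 d r z s

/-- The variance inequality. -/
def ST_VARM : Prop :=
  ∀ (n m : ℕ) (Y ι : Type) [Fintype Y] [DecidableEq Y] [Fintype ι] (S : ι → Finset (Fin n))
    (r z : Y → ℝ) (d s : ℝ), MH0 m S r z d s → ∀ ξ e : ι → ℝ,
      (∑ η, wt S (fun I => ξ I ^ 2) d r z η)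
        * (∑ η, wt S (fun I => ξ I ^ 2) d r z η * pol S (fun I => ξ I * e I) (tau d r η) ^ 2)
      - (∑ η, wt S (fun I => ξ I ^ 2) d r z η * pol S (fun I => ξ I * e I) (tau d r η)) ^ 2
      ≤ 1 / 2 * (∑ η, wt S (fun I => ξ I ^ 2) d r z η)
        * ∑ η, wt S (fun I => ξ I ^ 2) d r z η * pol S (fun I => e I ^ 2) (tau d r η)

/-- The function `G(ξ) = ∑ z^η exp(-∑ ξ_I² τ^I)`. -/
noncomputable def GG {n : ℕ} {Y ι : Type} [Fintype Y] [DecidableEq Y] [Fintype ι]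
    (S : ι → Finset (Fin n)) (r z : Y → ℝ) (d : ℝ) (ξ : ι → ℝ) : ℝ :=
  ∑ η : Finset (Fin n × Y), wt S (fun I => ξ I ^ 2) d r z η

def ST_LOGC : Prop :=
  ∀ (n m : ℕ) (Y ι : Type) [Fintype Y] [DecidableEq Y] [Fintype ι] (S : ι → Finset (Fin n))
    (r z : Y → ℝ) (d s : ℝ), MH0 m S r z d s → ∀ (ξ ξ' : ι → ℝ) (l l' : ℝ), 0 < l → 0 < l' →
      l + l' = 1 → GG S r z d ξ ^ l * GG S r z d ξ' ^ l' ≤ GG S r z d (l • ξ + l' • ξ')

/-- The inverse of the norm. -/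
noncomputable def Fq {n : ℕ} {Y ι : Type} [Fintype Y] [DecidableEq Y] [Fintype ι]
    (S : ι → Finset (Fin n)) (r z : Y → ℝ) (d : ℝ) (w : ι → ℝ) : ℝ :=
  ∑ η : Finset (Fin n × Y), (∏ x ∈ η, z x.2)
    * (pol S (fun I => w I ^ 2) (tau d r η)) ^ (-(1 / 2) : ℝ)

def ST_BALL : Prop :=
  ∀ (n m : ℕ) (Y ι : Type) [Fintype Y] [DecidableEq Y] [Fintype ι] (S : ι → Finset (Fin n))
    (r z : Y → ℝ) (d s : ℝ), MH0 m S r z d s → ∀ (w w' : ι → ℝ),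
      (Fq S r z d (w + w'))⁻¹ ≤ (Fq S r z d w)⁻¹ + (Fq S r z d w')⁻¹

/-- Unconditional norms have a nonnegative supporting functional. -/
def ST_HB : Prop :=
  ∀ (ι : Type) [Fintype ι] (N : (ι → ℝ) → ℝ), (∀ w, 0 ≤ N w) →
    (∀ w w', N (w + w') ≤ N w + N w') → (∀ (t : ℝ) w, N (t • w) = |t| * N w) →
    (∀ w w', (∀ I, |w I| = |w' I|) → N w = N w') →
    ∀ v, 0 < N v → ∃ c : ι → ℝ, (∀ I, 0 ≤ c I) ∧ ∑ I, c I = 1 ∧ (∀ I, v I = 0 → c I = 0) ∧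
      ∀ w, (∑ I, c I * |w I / v I|) * N v ≤ N w

/-! ## D. The property `PP` -/

/-- The integral `∫ exp (-∑ Λ((V t)_i ^ 2)) dt`. -/
noncomputable def MM {n m : ℕ} (Λ : ℝ → ℝ) (V : Matrix (Fin n) (Fin m) ℝ) : ℝ :=
  ∫ t : Fin m → ℝ, Real.exp (-∑ i, Λ ((V.mulVec t i) ^ 2))

/-- The existence of a random coordinate projection. -/
def PP (n m : ℕ) (Λ : ℝ → ℝ) : Prop :=
  ∀ V : Matrix (Fin n) (Fin m) ℝ, Function.Injective V.mulVec →
    ∃ c : (Fin m → Fin n) → ℝ, (∀ f, 0 ≤ c f) ∧ ∑ f, c f = 1 ∧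
      (∀ f, (V.submatrix f id).det = 0 → c f = 0) ∧
      ∀ W : Matrix (Fin n) (Fin m) ℝ, Function.Injective W.mulVec →
        (∑ f, c f * |(W.submatrix f id).det / (V.submatrix f id).det|) * MM Λ W ≤ MM Λ V

def ST_LIM : Prop :=
  ∀ (n m : ℕ) (Λk : ℕ → ℝ → ℝ) (Λ : ℝ → ℝ) (a b : ℝ), 0 < a →
    (∀ k, ContinuousOn (Λk k) (Set.Ici 0)) →
    (∀ k u, 0 ≤ u → a * Real.sqrt u - b ≤ Λk k u) →
    (∀ u, 0 ≤ u → Tendsto (fun k => Λk k u) atTop (𝓝 (Λ u))) →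
    (∀ k, PP n m (Λk k)) → PP n m Λ

/-- The Laplace exponent of the finite model. -/
noncomputable def lam {Y : Type} [Fintype Y] (d : ℝ) (r z : Y → ℝ) (u : ℝ) : ℝ :=
  d * u + ∑ y, Real.log ((1 + z y) / (1 + z y * Real.exp (-(u * r y))))

/-- The integral `MM` for the finite model. -/
def ST_LINK : Prop :=
  ∀ (n m : ℕ) (Y : Type) [Fintype Y] [DecidableEq Y] (r z : Y → ℝ) (d : ℝ),
    (∀ y, 0 < r y) → (∀ y, 0 < z y) → 0 < d →
    ∃ C : ℝ, 0 < C ∧ ∀ V : Matrix (Fin n) (Fin m) ℝ, Function.Injective V.mulVec →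
      MM (lam d r z) V = C * Fq (fun f : Fin m ↪ Fin n => univ.map f) r z d
        (fun f => (V.submatrix f id).det)

def ST_FINP : Prop :=
  ∀ (n m : ℕ) (Y : Type) [Fintype Y] [DecidableEq Y] (r z : Y → ℝ) (d s : ℝ), 1 ≤ m →
    (∀ y, 0 < r y) → (∀ y, 0 < z y) → (∀ y, z y ≤ 1) → 0 < d → 0 < s → s ≤ 1 / (15 * m) →
    H1 d r z s → PP n m (lam d r z)

/-! ## E. Approximation of the stable exponent -/

/-- The sizes on the grid. -/
noncomputable def gr (ρ : ℝ) (N M : ℕ) (y : Fin (2 * N + 1) × Fin M) : ℝ :=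
  ρ ^ (((y.1 : ℕ) : ℤ) - (N : ℤ))

/-- The activities on the grid. -/
noncomputable def gz (ρ ε c : ℝ) (N M : ℕ) (y : Fin (2 * N + 1) × Fin M) : ℝ :=
  c * ρ ^ (-((1 - ε) * (((y.1 : ℕ) : ℝ) - (N : ℝ)))) / M

/-- The drift. -/
noncomputable def gd (ρ ε c : ℝ) (N : ℕ) : ℝ := c * ρ ^ (-(ε * (N : ℝ))) / (ρ ^ ε - 1)

def ST_GH1 : Prop :=
  ∀ (ρ ε c : ℝ) (N M : ℕ), 1 < ρ → 0 < ε → ε < 1 → 0 < c → 1 ≤ M →
    H1 (gd ρ ε c N) (gr ρ N M) (gz ρ ε c N M) (ρ * ε)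

/-- The Laplace exponent on the infinite grid. -/
noncomputable def Lr (ρ ε c u : ℝ) : ℝ :=
  ∑' l : ℤ, c * ρ ^ (-((1 - ε) * (l : ℝ))) * (1 - Real.exp (-(u * ρ ^ (l : ℝ))))

def ST_LR : Prop :=
  ∀ (ρ ε c : ℝ), 1 < ρ → 0 < ε → ε < 1 → 0 < c →
    (∀ u, 0 ≤ u → Summable fun l : ℤ =>
      c * ρ ^ (-((1 - ε) * (l : ℝ))) * (1 - Real.exp (-(u * ρ ^ (l : ℝ))))) ∧
    ContinuousOn (Lr ρ ε c) (Set.Ici 0) ∧
    (∀ u v, 0 ≤ u → u ≤ v → Lr ρ ε c u ≤ Lr ρ ε c v) ∧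
    (∀ u, 0 ≤ u → Lr ρ ε c (ρ * u) = ρ ^ (1 - ε) * Lr ρ ε c u) ∧
    0 < Lr ρ ε c 1 ∧ Lr ρ ε c 0 = 0

/-- Approximation of `Lr` by finite models. -/
def ST_GLIM : Prop :=
  ∀ (ρ ε c : ℝ), 1 < ρ → 0 < ε → ε ≤ 1 / 2 → 0 < c →
    ∃ (M : ℕ → ℕ) (a b : ℝ), 0 < a ∧ (∀ N, 1 ≤ M N) ∧
      (∀ N y, gz ρ ε c N (M N) y ≤ 1) ∧
      (∀ N, ContinuousOn (lam (gd ρ ε c N) (gr ρ N (M N)) (gz ρ ε c N (M N))) (Set.Ici 0)) ∧
      (∀ N u, 0 ≤ u → a * Real.sqrt u - b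
        ≤ lam (gd ρ ε c N) (gr ρ N (M N)) (gz ρ ε c N (M N)) u) ∧
      ∀ u, 0 ≤ u → Tendsto (fun N => lam (gd ρ ε c N) (gr ρ N (M N)) (gz ρ ε c N (M N)) u)
        atTop (𝓝 (Lr ρ ε c u))

/-- The limit `ρ → 1`. -/
def ST_RLIM : Prop :=
  ∀ ε : ℝ, 0 < ε → ε ≤ 1 / 2 →
    ∃ (ρ c : ℕ → ℝ) (a b : ℝ), 0 < a ∧ (∀ k, 1 < ρ k) ∧ (∀ k, ρ k ≤ 16 / 15) ∧ (∀ k, 0 < c k) ∧
      (∀ k u, 0 ≤ u → a * Real.sqrt u - b ≤ Lr (ρ k) ε (c k) u) ∧
      ∀ u, 0 ≤ u → Tendsto (fun k => Lr (ρ k) ε (c k) u) atTop (𝓝 (u ^ (1 - ε)))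

/-- The stable exponent has the property `PP`. -/
def ST_PSTAB : Prop :=
  ∀ (n m : ℕ) (ε : ℝ), 1 ≤ m → 0 < ε → ε ≤ 1 / (16 * m) → PP n m (fun u => u ^ (1 - ε))

/-! ## F. Geometry -/

/-- The isodiametric inequality in normed spaces. -/
def ST_ISOD : Prop :=
  ∀ (E : Type) [NormedAddCommGroup E] [NormedSpace ℝ E] [FiniteDimensional ℝ E]
    [MeasurableSpace E] [BorelSpace E] (μ : Measure E) [μ.IsAddHaarMeasure] (A : Set E),
    μ A * 2 ^ Module.finrank ℝ E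
      ≤ Metric.ediam A ^ (Module.finrank ℝ E : ℝ) * μ (Metric.closedBall 0 1)

/-- The Hausdorff measure of the unit ball. -/
def ST_HBALL : Prop :=
  ∀ (E : Type) [NormedAddCommGroup E] [NormedSpace ℝ E] [FiniteDimensional ℝ E]
    [MeasurableSpace E] [BorelSpace E] [Nontrivial E],
    μH[(Module.finrank ℝ E : ℝ)] (Metric.closedBall (0 : E) 1) = 2 ^ Module.finrank ℝ E

/-- An oriented compact convex `m`-dimensional polytope in an affine `m`-plane of `ℝⁿ`. The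
polytope is the image of a solid polytope of `ℝᵐ` (the convex hull of the finite set `verts`) by
the affine map `t ↦ base + ∑ t_k dir_k`; the orientation is given by the basis `dir` of the
direction space. -/
structure Face (m n : ℕ) where
  verts : Finset (Fin m → ℝ)
  solid : (interior (convexHull ℝ (verts : Set (Fin m → ℝ)))).Nonempty
  base : Fin n → ℝ
  dir : Fin m → Fin n → ℝ
  indep : LinearIndependent ℝ dir

/-- The parameter domain of the face. -/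
def Face.dom {m n : ℕ} (F : Face m n) : Set (Fin m → ℝ) :=
  convexHull ℝ (F.verts : Set (Fin m → ℝ))

/-- The parametrisation of the face. -/
def Face.param {m n : ℕ} (F : Face m n) (t : Fin m → ℝ) : Fin n → ℝ :=
  F.base + ∑ k, t k • F.dir k

/-- The polytope as a subset of `ℓ^p_n`. -/
def Face.carrier {m n : ℕ} (p : ℝ≥0∞) (F : Face m n) : Set (PiLp p (fun _ : Fin n => ℝ)) :=
  (fun t => WithLp.toLp p (F.param t)) '' F.dom

/-- The matrix of the direction vectors. -/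
def Face.mat {m n : ℕ} (F : Face m n) : Matrix (Fin n) (Fin m) ℝ :=
  Matrix.of fun i k => F.dir k i

/-- The integral of the exterior derivative of a smooth form `w` of degree `m` over an oriented
polytope of dimension `m + 1`. -/
noncomputable def Face.intd {m n : ℕ} (F : Face (m + 1) n)
    (w : (Fin n → ℝ) → (Fin n → ℝ) [⋀^Fin m]→L[ℝ] ℝ) : ℝ :=
  ∫ t in F.dom, extDeriv w (F.param t) F.dir

/-- The polyhedral chain `∑ θ_j [F_j]` is a cycle: its boundary, as a current, is zero. -/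
def IsCycle {m n K : ℕ} (F : Fin K → Face (m + 1) n) (θ : Fin K → ℤ) : Prop :=
  ∀ w : (Fin n → ℝ) → (Fin n → ℝ) [⋀^Fin m]→L[ℝ] ℝ, ContDiff ℝ ∞ w →
    ∑ j, (θ j : ℝ) * (F j).intd w = 0

/-- The Hausdorff measure of a face. -/
def ST_HFACE : Prop :=
  ∀ (m n : ℕ) (p : ℝ), 1 ≤ m → 1 ≤ p → ∀ [Fact (1 ≤ ENNReal.ofReal p)],
    ∃ C : ℝ, 0 < C ∧ ∀ F : Face m n,
      0 < MM (fun u => u ^ (p / 2)) F.mat ∧
      μH[(m : ℝ)] (F.carrier (ENNReal.ofReal p))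
        = ENNReal.ofReal (C / MM (fun u => u ^ (p / 2)) F.mat * (volume F.dom).toReal)

/-- The test forms. -/
def ST_TFORM : Prop :=
  ∀ (m n : ℕ) (f : Fin (m + 1) → Fin n) (h : (Fin (m + 1) → ℝ) → ℝ), ContDiff ℝ ∞ h →
    ∀ a : Fin (m + 1), ∃ w : (Fin n → ℝ) → (Fin n → ℝ) [⋀^Fin m]→L[ℝ] ℝ, ContDiff ℝ ∞ w ∧
      ∀ (x : Fin n → ℝ) (v : Fin (m + 1) → Fin n → ℝ),
        extDeriv w x v = fderiv ℝ h (fun b => x (f b)) (Pi.single a 1)
          * (Matrix.of fun (b k : Fin (m + 1)) => v k (f b)).det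

/-- The Fourier transform of the projected cycle vanishes. -/
def ST_CF : Prop :=
  ∀ (m n K : ℕ) (F : Fin K → Face (m + 1) n) (θ : Fin K → ℤ), IsCycle F θ →
    ∀ (f : Fin (m + 1) → Fin n) (k : Fin (m + 1) → ℝ),
      ∑ j, (θ j : ℝ) * ((F j).mat.submatrix f id).det
        * ∫ t in (F j).dom, Real.cos (∑ a, k a * (F j).param t (f a)) = 0 ∧
      ∑ j, (θ j : ℝ) * ((F j).mat.submatrix f id).det
        * ∫ t in (F j).dom, Real.sin (∑ a, k a * (F j).param t (f a)) = 0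

/-- The covering property. -/
def ST_COVER : Prop :=
  ∀ (m n K : ℕ) (F : Fin K → Face (m + 1) n) (θ : Fin K → ℤ), (∀ j, θ j ≠ 0) → IsCycle F θ →
    ∀ (f : Fin (m + 1) → Fin n) (i : Fin K), ((F i).mat.submatrix f id).det ≠ 0 →
      (volume (F i).dom).toReal
        ≤ ∑ j ∈ univ.erase i, |((F j).mat.submatrix f id).det / ((F i).mat.submatrix f id).det|
          * (volume (F j).dom).toReal

/-- The main theorem. -/
def ST_MAIN : Prop :=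
  ∀ (m n K : ℕ) (p : ℝ), 2 - 1 / (8 * ((m : ℝ) + 1)) ≤ p → p < 2 →
    ∀ [Fact (1 ≤ ENNReal.ofReal p)] (F : Fin K → Face (m + 1) n) (θ : Fin K → ℤ),
    (∀ j, θ j ≠ 0) → IsCycle F θ → ∀ i,
      μH[(m : ℝ) + 1] ((F i).carrier (ENNReal.ofReal p))
        ≤ ∑ j ∈ univ.erase i, μH[(m : ℝ) + 1] ((F j).carrier (ENNReal.ofReal p))

end Pool.Agent.Helper44.GF
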