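import Pool.Agent.Helper44.GF.Defs

open Finset MeasureTheory Filter Topology
open scoped ENNReal ContDiff

namespace Pool.Agent.Helper44.GF

theorem mf1_prod {n : ℕ} (s : Finset (Fin n)) (τ : Fin n → ℝ) (i : Fin n) (c : ℝ) :
    ∏ k ∈ s, Function.update τ i (τ i + c) k
      = ∏ k ∈ s, τ k + c * (if i ∈ s then ∏ k ∈ s.erase i, τ k else 0) := by
  by_cases hi : i ∈ s
  · rw [if_pos hi, ← Finset.mul_prod_erase s _ hi, ← Finset.mul_prod_erase s τ hi,
      Function.update_self]
    have h1 : ∏ k ∈ s.erase i, Function.update τ i (τ i + c) k = ∏ k ∈ s.erase i, τ k := by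
      refine Finset.prod_congr rfl fun k hk => ?_
      rw [Function.update_of_ne (Finset.ne_of_mem_erase hk)]
    rw [h1]
    ring
  · rw [if_neg hi, mul_zero, add_zero]
    refine Finset.prod_congr rfl fun k hk => ?_
    have : k ≠ i := fun h => hi (h ▸ hk)
    rw [Function.update_of_ne this]

theorem st_MF1 : ST_MF1 := by
  intro n m ι _ S a hS τ
  refine ⟨?_, ?_, ?_, ?_, ?_, ?_, ?_⟩
  · intro i c
    unfold pol A1
    rw [Finset.mul_sum, ← Finset.sum_add_distrib]
    refine Finset.sum_congr rfl fun I _ => ?_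
    rw [mf1_prod]
    by_cases hi : i ∈ S I
    · rw [if_pos hi, if_pos hi]; ring
    · rw [if_neg hi, if_neg hi]; ring
  · intro i j c
    unfold A1 A2
    rw [Finset.mul_sum, ← Finset.sum_add_distrib]
    refine Finset.sum_congr rfl fun I _ => ?_
    by_cases hi : i ∈ S I
    · rw [if_pos hi, if_pos hi, mf1_prod]
      by_cases hj : i ≠ j ∧ j ∈ S I
      · rw [if_pos (show i ≠ j ∧ i ∈ S I ∧ j ∈ S I from ⟨hj.1, hi, hj.2⟩),
          if_pos (Finset.mem_erase.2 ⟨Ne.symm hj.1, hj.2⟩)]
        ring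
      · rw [if_neg (show ¬ (i ≠ j ∧ i ∈ S I ∧ j ∈ S I) from fun h => hj ⟨h.1, h.2.2⟩),
          if_neg (fun h => hj ⟨Ne.symm (Finset.mem_erase.1 h).1, (Finset.mem_erase.1 h).2⟩)]
        ring
    · rw [if_neg hi, if_neg hi, if_neg (fun h => hi h.2.1)]
      ring
  · intro i j k c hk
    unfold A2
    refine Finset.sum_congr rfl fun I _ => ?_
    by_cases h : i ≠ j ∧ i ∈ S I ∧ j ∈ S I
    · rw [if_pos h, if_pos h]
      congr 1
      refine Finset.prod_congr rfl fun l hl => ?_
      have h1 := Finset.mem_erase.1 hl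
      have h2 := Finset.mem_erase.1 h1.2
      rw [Function.update_of_ne]
      rcases hk with rfl | rfl
      · exact h2.1
      · exact h1.1
    · rw [if_neg h, if_neg h]
  · intro i j
    unfold A2
    refine Finset.sum_congr rfl fun I _ => ?_
    by_cases h : i ≠ j ∧ i ∈ S I ∧ j ∈ S I
    · rw [if_pos h, if_pos (show j ≠ i ∧ j ∈ S I ∧ i ∈ S I from ⟨Ne.symm h.1, h.2.2, h.2.1⟩),
        Finset.erase_right_comm]
    · rw [if_neg h, if_neg]
      exact fun h' => h ⟨Ne.symm h'.1, h'.2.2, h'.2.1⟩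
  · intro i
    unfold A2
    refine Finset.sum_eq_zero fun I _ => ?_
    rw [if_neg]
    exact fun h => h.1 rfl
  · intro i
    unfold A2 A1
    simp only [Finset.sum_mul]
    rw [Finset.sum_comm, Finset.mul_sum]
    refine Finset.sum_congr rfl fun I _ => ?_
    by_cases hi : i ∈ S I
    · rw [if_pos hi]
      have h1 : ∀ j : Fin n, (if i ≠ j ∧ i ∈ S I ∧ j ∈ S I then
          a I * ∏ k ∈ ((S I).erase i).erase j, τ k else 0) * τ j
          = if j ∈ (S I).erase i then a I * ∏ k ∈ (S I).erase i, τ k else 0 := by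
        intro j
        by_cases hj : j ∈ (S I).erase i
        · have hj' := Finset.mem_erase.1 hj
          rw [if_pos hj, if_pos ⟨Ne.symm hj'.1, hi, hj'.2⟩, ← Finset.mul_prod_erase _ τ hj]
          ring
        · rw [if_neg hj, if_neg, zero_mul]
          exact fun h => hj (Finset.mem_erase.2 ⟨Ne.symm h.1, h.2.2⟩)
      rw [Finset.sum_congr rfl fun j _ => h1 j, Finset.sum_ite_mem, Finset.univ_inter,
        Finset.sum_const, Finset.card_erase_of_mem hi, hS I, nsmul_eq_mul]
      have hm : 1 ≤ m := by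
        rw [← hS I]
        exact Finset.card_pos.2 ⟨i, hi⟩
      rw [Nat.cast_sub hm, Nat.cast_one]
    · rw [if_neg hi, mul_zero]
      refine Finset.sum_eq_zero fun j _ => ?_
      rw [if_neg (fun h => hi h.2.1), zero_mul]
  · unfold pol A1
    simp only [Finset.mul_sum]
    rw [Finset.sum_comm]
    refine Finset.sum_congr rfl fun I _ => ?_
    have h1 : ∀ i : Fin n, τ i * (if i ∈ S I then a I * ∏ k ∈ (S I).erase i, τ k else 0)
        = if i ∈ S I then a I * ∏ k ∈ S I, τ k else 0 := by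
      intro i
      by_cases hi : i ∈ S I
      · rw [if_pos hi, if_pos hi, ← Finset.mul_prod_erase _ τ hi]
        ring
      · rw [if_neg hi, if_neg hi, mul_zero]
    rw [Finset.sum_congr rfl fun i _ => h1 i, Finset.sum_ite_mem, Finset.univ_inter,
      Finset.sum_const, hS I, nsmul_eq_mul]

end Pool.Agent.Helper44.GF
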